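import Mathlib
import Pool.Agent.TH709.RGap.Deuber

set_option autoImplicit false

/-!
# Monochromatic solutions of `x - 2 y = p(z)`
-/

namespace Pool.Agent.Y425.XTwoY

open Polynomial

/-- there is a finite colouring for which all monochromatic solutions are constant -/
def OnlyConst (p : ℤ[X]) : Prop :=
  ∃ (κ : Type) (_ : Finite κ) (c : ℕ → κ), ∀ x y z : ℕ, 0 < x → 0 < y → 0 < z →
    (x : ℤ) - 2 * y = p.eval (z : ℤ) → c x = c y → c y = c z → x = y ∧ y = z

/-! ### Positive results -/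

theorem pos_rows (c₀ q : ℕ) (hc : 0 < c₀) (r : ℕ) (c : ℕ → Fin r) :
    ∃ u v : ℕ, 0 < u ∧ 0 < v ∧ ∃ col : Fin r, c (c₀ * u) = col ∧
      ∀ t : ℕ, t ≤ q → c (c₀ * v + t * u) = col := by
  obtain ⟨C, hC⟩ := Pool.Agent.TH709.RGap.mono_rows r q c₀ 2 hc
  obtain ⟨w, hw, col, hcol⟩ := hC c
  refine ⟨w 0, w 1, (hw 0 (by norm_num)).1, (hw 1 (by norm_num)).1, col, ?_, ?_⟩
  · obtain ⟨m, -, hm, hc1⟩ := hcol 0 (by norm_num) (fun _ => 0) (fun _ => by simp)
    rw [Finset.range_zero, Finset.sum_empty, add_zero] at hm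
    have : m = c₀ * w 0 := by exact_mod_cast hm
    rw [← this]; exact hc1
  · intro t ht
    obtain ⟨m, -, hm, hc1⟩ := hcol 1 (by norm_num) (fun _ => (t : ℤ))
      (fun _ => by rw [Nat.abs_cast]; exact_mod_cast ht)
    rw [Finset.sum_range_one] at hm
    have : m = c₀ * w 1 + t * w 0 := by exact_mod_cast hm
    rw [← this]; exact hc1

theorem pos_X (r : ℕ) (c : ℕ → Fin r) : ∃ x y z : ℕ, 0 < x ∧ 0 < y ∧ 0 < z ∧
    (x : ℤ) - 2 * y = (X : ℤ[X]).eval (z : ℤ) ∧ c x = c y ∧ c y = c z ∧ ¬ (x = y ∧ y = z) := by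
  obtain ⟨u, v, hu, hv, col, h1, h2⟩ := pos_rows 1 2 (by norm_num) r c
  have h3 := h2 2 le_rfl
  have h4 := h2 0 (by norm_num)
  rw [one_mul] at h1
  rw [one_mul] at h3 h4
  rw [zero_mul, add_zero] at h4
  refine ⟨v + 2 * u, u, v, by omega, hu, hv, ?_, by rw [h3, h1], by rw [h1, h4], by omega⟩
  rw [eval_X]
  push_cast
  ring

theorem pos_negX (r : ℕ) (c : ℕ → Fin r) : ∃ x y z : ℕ, 0 < x ∧ 0 < y ∧ 0 < z ∧
    (x : ℤ) - 2 * y = (-X : ℤ[X]).eval (z : ℤ) ∧ c x = c y ∧ c y = c z ∧ ¬ (x = y ∧ y = z) := by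
  obtain ⟨u, v, hu, hv, col, h1, h2⟩ := pos_rows 1 2 (by norm_num) r c
  have h3 := h2 2 le_rfl
  have h4 := h2 0 (by norm_num)
  have h5 := h2 1 (by norm_num)
  rw [one_mul] at h1
  rw [one_mul] at h3 h4 h5
  rw [zero_mul, add_zero] at h4
  rw [one_mul] at h5
  refine ⟨v + 2 * u, v + u, v, by omega, by omega, hv, ?_, by rw [h3, h5], by rw [h5, h4], by omega⟩
  rw [eval_neg, eval_X]
  push_cast
  ring

theorem pos_neg2X (r : ℕ) (c : ℕ → Fin r) : ∃ x y z : ℕ, 0 < x ∧ 0 < y ∧ 0 < z ∧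
    (x : ℤ) - 2 * y = (-2 * X : ℤ[X]).eval (z : ℤ) ∧ c x = c y ∧ c y = c z ∧
      ¬ (x = y ∧ y = z) := by
  obtain ⟨u, v, hu, hv, col, h1, h2⟩ := pos_rows 2 1 (by norm_num) r c
  have h4 := h2 0 (by norm_num)
  have h5 := h2 1 (by norm_num)
  rw [zero_mul, add_zero] at h4
  rw [one_mul] at h5
  refine ⟨2 * u, 2 * v + u, 2 * v, by omega, by omega, by omega, ?_, by rw [h1, h5],
    by rw [h5, h4], by omega⟩
  rw [eval_mul, eval_X]
  have : (-2 : ℤ[X]).eval ((2 * v : ℕ) : ℤ) = -2 := by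
    rw [eval_neg]; simp
  rw [this]
  push_cast
  ring

/-! ### Degree at most one -/

/-- last nonzero digit in base `q` -/
noncomputable def dig (q n : ℕ) : ZMod q := ((n / q ^ (padicValNat q n) : ℕ) : ZMod q)

theorem dig_ne_zero {q n : ℕ} (hq : q.Prime) (hn : 0 < n) : dig q n ≠ 0 := by
  have := Fact.mk hq
  unfold dig
  rw [Ne, ZMod.natCast_eq_zero_iff]
  have h0 := pow_succ_padicValNat_not_dvd (p := q) hn.ne'
  have h1 : q ^ padicValNat q n ∣ n := pow_padicValNat_dvd
  intro h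
  apply h0
  generalize padicValNat q n = v at *
  obtain ⟨m, rfl⟩ := h1
  rw [Nat.mul_div_cancel_left _ (Nat.pow_pos hq.pos)] at h
  rw [pow_succ]
  exact Nat.mul_dvd_mul_left _ h

/-- the digit at a place `v` not beyond the valuation -/
theorem digit_at {q n v : ℕ} (hq : q.Prime) (hv : v ≤ padicValNat q n) :
    ∃ n' : ℕ, n = q ^ v * n' ∧ ((n' : ZMod q) = if v = padicValNat q n then dig q n else 0) := by
  have := Fact.mk hq
  have h1 : q ^ padicValNat q n ∣ n := pow_padicValNat_dvd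
  unfold dig
  generalize padicValNat q n = w at *
  obtain ⟨m, rfl⟩ := h1
  obtain ⟨e, he⟩ := Nat.exists_eq_add_of_le hv
  refine ⟨q ^ e * m, ?_, ?_⟩
  · rw [he, pow_add, mul_assoc]
  · split_ifs with h
    · have he0 : e = 0 := by omega
      rw [he0, pow_zero, one_mul, Nat.mul_div_cancel_left _ (Nat.pow_pos hq.pos)]
    · have he0 : e ≠ 0 := by omega
      rw [Nat.cast_mul, Nat.cast_pow, CharP.cast_eq_zero, zero_pow he0, zero_mul]

theorem small_ne {q : ℕ} (a : ℤ) (h : a ≠ 0) (h2 : |a| < q) : ((a : ℤ) : ZMod q) ≠ 0 := by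
  rw [Ne, ZMod.intCast_zmod_eq_zero_iff_dvd]
  intro h3
  exact h (Int.eq_zero_of_abs_lt_dvd h3 h2)

theorem linear (b : ℤ) (h1 : b ≠ 1) (h2 : b ≠ -1) (h3 : b ≠ -2) :
    OnlyConst (C b * X) := by
  obtain ⟨q, hqb, hq⟩ := Nat.exists_infinite_primes (b.natAbs + 4)
  have := Fact.mk hq
  have : NeZero q := ⟨hq.ne_zero⟩
  have hqb' : |b| + 4 ≤ q := by
    have : ((b.natAbs + 4 : ℕ) : ℤ) ≤ q := by exact_mod_cast hqb
    push_cast at this
    exact this
  refine ⟨ZMod q, inferInstance, dig q, ?_⟩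
  intro x y z hx hy hz heq hxy hyz
  exfalso
  rw [eval_mul, eval_C, eval_X] at heq
  set u := dig q x with hu
  have hu0 : u ≠ 0 := dig_ne_zero hq hx
  have hyu : dig q y = u := hxy.symm
  have hzu : dig q z = u := by rw [← hyz, hyu]
  have hb := abs_nonneg b
  have hble := le_abs_self b
  have hbge := neg_abs_le b
  by_cases hb0 : b = 0
  · -- x = 2 y
    rw [hb0, zero_mul] at heq
    set v := min (padicValNat q x) (padicValNat q y) with hv
    obtain ⟨x', hx1, hx2⟩ := digit_at hq (show v ≤ padicValNat q x from min_le_left _ _)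
    obtain ⟨y', hy1, hy2⟩ := digit_at hq (show v ≤ padicValNat q y from min_le_right _ _)
    have hqv : (q : ℤ) ^ v ≠ 0 := pow_ne_zero _ (by exact_mod_cast hq.ne_zero)
    have h4 : (x' : ℤ) - 2 * y' = 0 := by
      have h5 : (q : ℤ) ^ v * ((x' : ℤ) - 2 * y') = 0 := by
        rw [← heq, hx1, hy1]; push_cast; ring
      exact (mul_eq_zero.1 h5).resolve_left hqv
    have h6 : (x' : ZMod q) - 2 * (y' : ZMod q) = 0 := by
      have := congrArg (Int.cast : ℤ → ZMod q) h4
      push_cast at this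
      exact this
    rw [hx2, hy2, ← hu, hyu] at h6
    have e1 := small_ne (q := q) 1 (by norm_num) (by rw [abs_one]; linarith)
    have e2 := small_ne (q := q) 2 (by norm_num) (by rw [abs_two]; linarith)
    push_cast at e1 e2
    split_ifs at h6 with c1 c2 c2
    · apply hu0
      linear_combination -h6
    · apply hu0
      linear_combination h6
    · have h7 : (2 : ZMod q) * u = 0 := by linear_combination -h6
      exact (mul_ne_zero e2 hu0) h7
    · omega
  · set v := min (padicValNat q x) (min (padicValNat q y) (padicValNat q z)) with hv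
    obtain ⟨x', hx1, hx2⟩ := digit_at hq (show v ≤ padicValNat q x from min_le_left _ _)
    obtain ⟨y', hy1, hy2⟩ := digit_at hq
      (show v ≤ padicValNat q y from (min_le_right _ _).trans (min_le_left _ _))
    obtain ⟨z', hz1, hz2⟩ := digit_at hq
      (show v ≤ padicValNat q z from (min_le_right _ _).trans (min_le_right _ _))
    have hqv : (q : ℤ) ^ v ≠ 0 := pow_ne_zero _ (by exact_mod_cast hq.ne_zero)
    have h4 : (x' : ℤ) - 2 * y' - b * z' = 0 := by
      have h5 : (q : ℤ) ^ v * ((x' : ℤ) - 2 * y' - b * z') = 0 := by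
        have h6 : (x : ℤ) - 2 * y - b * z = 0 := by linarith
        rw [← h6, hx1, hy1, hz1]; push_cast; ring
      exact (mul_eq_zero.1 h5).resolve_left hqv
    have h6 : (x' : ZMod q) - 2 * (y' : ZMod q) - (b : ZMod q) * (z' : ZMod q) = 0 := by
      have := congrArg (Int.cast : ℤ → ZMod q) h4
      push_cast at this
      exact this
    rw [hx2, hy2, hz2, ← hu, hyu, hzu] at h6
    have key : ∀ a : ℤ, a ≠ 0 → |a| < q → ((a : ℤ) : ZMod q) * u ≠ 0 :=
      fun a h h' => mul_ne_zero (small_ne a h h') hu0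
    split_ifs at h6 with c1 c2 c3 c3 c2 c3 c3
    · refine key (-1 - b) (fun h => h2 (by linarith)) (by rw [abs_lt]; constructor <;> linarith) ?_
      push_cast
      linear_combination h6
    · refine key (-1) (by norm_num) (by rw [abs_lt]; constructor <;> linarith) ?_
      push_cast
      linear_combination h6
    · refine key (1 - b) (fun h => h1 (by linarith)) (by rw [abs_lt]; constructor <;> linarith) ?_
      push_cast
      linear_combination h6
    · refine key 1 (by norm_num) (by rw [abs_lt]; constructor <;> linarith) ?_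
      push_cast
      linear_combination h6
    · refine key (-2 - b) (fun h => h3 (by linarith)) (by rw [abs_lt]; constructor <;> linarith) ?_
      push_cast
      linear_combination h6
    · refine key (-2) (by norm_num) (by rw [abs_lt]; constructor <;> linarith) ?_
      push_cast
      linear_combination h6
    · refine key (-b) (fun h => hb0 (by linarith)) (by rw [abs_lt]; constructor <;> linarith) ?_
      push_cast
      linear_combination h6
    · omega

/-! ### Degree at least two -/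

/-- the colour `⌊L n⌋` modulo `M` -/
noncomputable def fcol (M : ℕ) (L : ℕ → ℝ) (n : ℕ) : ZMod M := ((⌊L n⌋ : ℤ) : ZMod M)

theorem fcol_ne {M : ℕ} {L : ℕ → ℝ} {x y : ℕ} (h1 : 1 ≤ L x - L y)
    (h2 : L x - L y ≤ (M : ℝ) - 1) : fcol M L x ≠ fcol M L y := by
  intro h
  unfold fcol at h
  have h3 : (((⌊L x⌋ - ⌊L y⌋ : ℤ)) : ZMod M) = 0 := by
    push_cast
    rw [h, sub_self]
  rw [ZMod.intCast_zmod_eq_zero_iff_dvd] at h3
  have h4 : ⌊L y⌋ + 1 ≤ ⌊L x⌋ := by
    rw [Int.le_floor]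
    push_cast
    have := Int.floor_le (L y)
    linarith
  have h5 : ⌊L x⌋ < ⌊L y⌋ + M := by
    rw [Int.floor_lt]
    push_cast
    have := Int.lt_floor_add_one (L y)
    linarith
  obtain ⟨k, hk⟩ := h3
  have h6 : 0 < (M : ℤ) * k := by rw [← hk]; linarith
  have h7 : (M : ℤ) * k < M * 1 := by rw [← hk, mul_one]; linarith
  have h8 : (0 : ℤ) < M := by
    by_contra hcon
    have : (M : ℤ) = 0 := le_antisymm (not_lt.1 hcon) (by positivity)
    rw [this, zero_mul] at h6
    exact lt_irrefl _ h6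
  have h9 : k < 1 := lt_of_mul_lt_mul_left h7 h8.le
  have h10 : 0 < k := by
    by_contra hcon
    have : (M : ℤ) * k ≤ 0 := mul_nonpos_of_nonneg_of_nonpos h8.le (not_lt.1 hcon)
    linarith
  omega

noncomputable def L1 (n : ℕ) : ℝ := 2 * (Real.log n / Real.log 2)

noncomputable def L2 (n : ℕ) : ℝ := 2 * (Real.log (Real.log n) / Real.log 2)

theorem L1_bd {x y : ℕ} (hx : 0 < x) (hy : 0 < y) (h1 : (9 : ℝ) / 4 * (y : ℝ) ^ 2 ≤ (x : ℝ) ^ 2)
    (h2 : (x : ℝ) ≤ 3 * y) : 1 ≤ L1 x - L1 y ∧ L1 x - L1 y ≤ ((5 : ℕ) : ℝ) - 1 := by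
  have hx' : (0 : ℝ) < x := by exact_mod_cast hx
  have hy' : (0 : ℝ) < y := by exact_mod_cast hy
  have hl2 : 0 < Real.log 2 := Real.log_pos (by norm_num)
  unfold L1
  have e : 2 * (Real.log x / Real.log 2) - 2 * (Real.log y / Real.log 2) =
      (2 * Real.log x - 2 * Real.log y) / Real.log 2 := by ring
  rw [e]
  constructor
  · rw [le_div_iff₀ hl2, one_mul]
    have h3 : Real.log ((9 : ℝ) / 4 * (y : ℝ) ^ 2) ≤ Real.log ((x : ℝ) ^ 2) :=
      Real.log_le_log (by positivity) h1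
    rw [Real.log_mul (by norm_num) (by positivity), Real.log_pow, Real.log_pow] at h3
    have h4 : Real.log 2 ≤ Real.log (9 / 4) := Real.log_le_log (by norm_num) (by norm_num)
    push_cast at h3
    linarith
  · rw [div_le_iff₀ hl2]
    have h3 : Real.log x ≤ Real.log (3 * y) := Real.log_le_log hx' h2
    rw [Real.log_mul (by norm_num) hy'.ne'] at h3
    have h4 : Real.log 3 ≤ 2 * Real.log 2 := by
      have : Real.log 3 ≤ Real.log (2 ^ 2) := Real.log_le_log (by norm_num) (by norm_num)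
      rw [Real.log_pow] at this
      exact_mod_cast this
    push_cast
    linarith

theorem L2_bd {x z d : ℕ} (K : ℝ) (hd : 2 ≤ d) (hK : 0 ≤ K)
    (hz : 2 * K + 1 ≤ Real.log z) (h : |Real.log x - d * Real.log z| ≤ K) :
    1 ≤ L2 x - L2 z ∧ L2 x - L2 z ≤ ((2 * (d + 1) + 1 : ℕ) : ℝ) - 1 := by
  have hl2 : 0 < Real.log 2 := Real.log_pos (by norm_num)
  have hlz : 0 < Real.log z := by linarith
  have hd' : (2 : ℝ) ≤ d := by exact_mod_cast hd
  rw [abs_le] at h
  have hlx : 3 / 2 * Real.log z ≤ Real.log x := by nlinarith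
  have hlx0 : 0 < Real.log x := by linarith
  have hlx2 : Real.log x ≤ (d + 1) * Real.log z := by nlinarith
  unfold L2
  have e : 2 * (Real.log (Real.log x) / Real.log 2) - 2 * (Real.log (Real.log z) / Real.log 2) =
      (2 * Real.log (Real.log x) - 2 * Real.log (Real.log z)) / Real.log 2 := by ring
  rw [e]
  constructor
  · rw [le_div_iff₀ hl2, one_mul]
    have h3 : Real.log (3 / 2 * Real.log z) ≤ Real.log (Real.log x) :=
      Real.log_le_log (by positivity) hlx
    rw [Real.log_mul (by norm_num) hlz.ne'] at h3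
    have h4 : Real.log 2 ≤ 2 * Real.log (3 / 2) := by
      have : Real.log 2 ≤ Real.log ((3 / 2) ^ 2) := Real.log_le_log (by norm_num) (by norm_num)
      rw [Real.log_pow] at this
      exact_mod_cast this
    linarith
  · rw [div_le_iff₀ hl2]
    have h3 : Real.log (Real.log x) ≤ Real.log ((d + 1) * Real.log z) :=
      Real.log_le_log hlx0 hlx2
    rw [Real.log_mul (by positivity) hlz.ne'] at h3
    have h4 : Real.log ((d : ℝ) + 1) ≤ (d + 1) * Real.log 2 := by
      have h5 : ((d : ℝ) + 1) ≤ 2 ^ (d + 1) := by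
        have : d + 1 < 2 ^ (d + 1) := Nat.lt_two_pow_self
        exact_mod_cast this.le
      have h6 : Real.log ((d : ℝ) + 1) ≤ Real.log (2 ^ (d + 1)) :=
        Real.log_le_log (by positivity) h5
      rw [Real.log_pow] at h6
      exact_mod_cast h6
    push_cast
    nlinarith

theorem growth (p : ℤ[X]) (hp : 2 ≤ p.natDegree) : ∃ A B : ℝ, 0 < A ∧ 0 < B ∧ ∃ N : ℕ,
    ∀ z : ℕ, N ≤ z → A * (z : ℝ) ^ p.natDegree ≤ |((p.eval (z : ℤ) : ℤ) : ℝ)| ∧
      |((p.eval (z : ℤ) : ℤ) : ℝ)| ≤ B * (z : ℝ) ^ p.natDegree ∧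
      ((0 < p.leadingCoeff ∧ (0 : ℝ) < ((p.eval (z : ℤ) : ℤ) : ℝ)) ∨
        (p.leadingCoeff < 0 ∧ ((p.eval (z : ℤ) : ℤ) : ℝ) < 0)) := by
  have hp0 : p ≠ 0 := by
    rintro rfl
    simp at hp
  set P : ℝ[X] := p.map (Int.castRingHom ℝ) with hP
  have hinj : Function.Injective (Int.castRingHom ℝ) := Int.cast_injective
  have hdeg : P.natDegree = p.natDegree := natDegree_map_eq_of_injective hinj p
  have hlead : P.leadingCoeff = (p.leadingCoeff : ℝ) := by
    rw [hP, leadingCoeff_map_of_injective hinj]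
    rfl
  have heval : ∀ z : ℕ, P.eval (z : ℝ) = ((p.eval (z : ℤ) : ℤ) : ℝ) := by
    intro z
    have := eval_intCast_map (Int.castRingHom ℝ) p (z : ℤ)
    rw [hP]
    simp
  have ha0 : p.leadingCoeff ≠ 0 := leadingCoeff_ne_zero.2 hp0
  have ha : (p.leadingCoeff : ℝ) ≠ 0 := by exact_mod_cast ha0
  have hequiv := Polynomial.isEquivalent_atTop_lead P
  have hlit := hequiv.isLittleO
  rw [Asymptotics.isLittleO_iff] at hlit
  have h1 := (hlit (c := 1 / 2) (by norm_num)).and (Filter.eventually_ge_atTop (1 : ℝ))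
  obtain ⟨x₀, hx₀⟩ := Filter.eventually_atTop.1 h1
  obtain ⟨N, hN⟩ := exists_nat_ge x₀
  refine ⟨|(p.leadingCoeff : ℝ)| / 2, 3 * |(p.leadingCoeff : ℝ)| / 2, by positivity, by positivity,
    N, fun z hz => ?_⟩
  obtain ⟨h2, h3⟩ := hx₀ z (hN.trans (by exact_mod_cast hz))
  simp only [Pi.sub_apply, Real.norm_eq_abs] at h2
  rw [heval z, hdeg, hlead] at h2
  set t : ℝ := ((p.eval (z : ℤ) : ℤ) : ℝ)
  set s : ℝ := (z : ℝ) ^ p.natDegree with hs
  set a : ℝ := (p.leadingCoeff : ℝ) with haa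
  have hs0 : 0 < s := by positivity
  rw [abs_mul, abs_of_pos hs0] at h2
  have h4 : |t| ≤ |t - a * s| + |a * s| := by
    have := abs_add_le (t - a * s) (a * s)
    rwa [sub_add_cancel] at this
  have h5 : |a * s| ≤ |t - a * s| + |t| := by
    have := abs_add_le (a * s - t) t
    rw [sub_add_cancel, abs_sub_comm] at this
    exact this
  rw [abs_mul, abs_of_pos hs0] at h4 h5
  refine ⟨by linarith, by linarith, ?_⟩
  have has : 0 < |a| * s := by positivity
  rcases lt_or_gt_of_ne ha0 with h6 | h6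
  · right
    refine ⟨h6, ?_⟩
    have h7 : a < 0 := by rw [haa]; exact_mod_cast h6
    rw [abs_of_neg h7] at h2 has
    rw [abs_le] at h2
    nlinarith [h2.2]
  · left
    refine ⟨h6, ?_⟩
    have h7 : 0 < a := by rw [haa]; exact_mod_cast h6
    rw [abs_of_pos h7] at h2 has
    rw [abs_le] at h2
    nlinarith [h2.1]

theorem nonlinear (p : ℤ[X]) (hp : 2 ≤ p.natDegree) : OnlyConst p := by
  obtain ⟨A, B, hA, hB, N, hN⟩ := growth p hp
  set d := p.natDegree with hd
  set K : ℝ := |Real.log A| + |Real.log B| + Real.log 3 with hK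
  have hl3 : 0 < Real.log 3 := Real.log_pos (by norm_num)
  have hK0 : 0 ≤ K := by positivity
  obtain ⟨N', hN'⟩ := exists_nat_ge (Real.exp (2 * K + 1))
  set M : ℕ := 2 * (d + 1) + 1 with hM
  set T : ℕ := max N N' with hT
  have : NeZero M := ⟨by omega⟩
  refine ⟨Fin (T + 1) × ZMod 5 × ZMod M, inferInstance,
    fun n => (⟨min n T, by omega⟩, fcol 5 L1 n, fcol M L2 n), ?_⟩
  intro x y z hx hy hz heq hxy hyz
  rw [Prod.mk.injEq, Prod.mk.injEq, Fin.mk.injEq] at hxy hyz
  by_contra hne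
  have hxT : T ≤ x := by omega
  have hyT : T ≤ y := by omega
  have hzT : T ≤ z := by omega
  obtain ⟨hxy0, hxy1, hxy2⟩ := hxy
  obtain ⟨hyz0, hyz1, hyz2⟩ := hyz
  obtain ⟨h1, h2, h3⟩ := hN z ((le_max_left _ _).trans hzT)
  have hz0 : (0 : ℝ) < z := by exact_mod_cast hz
  have hx0 : (0 : ℝ) < x := by exact_mod_cast hx
  have hy0 : (0 : ℝ) < y := by exact_mod_cast hy
  have hlz : 2 * K + 1 ≤ Real.log z := by
    rw [Real.le_log_iff_exp_le hz0]
    refine hN'.trans ?_
    exact_mod_cast (le_max_right _ _).trans hzT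
  have heq' : (x : ℝ) - 2 * y = ((p.eval (z : ℤ) : ℤ) : ℝ) := by
    rw [← heq]; push_cast; ring
  set P : ℝ := ((p.eval (z : ℤ) : ℤ) : ℝ) with hP
  have hs0 : 0 < (z : ℝ) ^ d := by positivity
  have hP0 : 0 < |P| := lt_of_lt_of_le (by positivity) h1
  -- numbers comparable to `|P|`
  have hcomp : ∀ w : ℕ, 0 < w → |P| ≤ 3 * w → (w : ℝ) ≤ 3 * |P| →
      |Real.log w - d * Real.log z| ≤ K := by
    intro w hw hw1 hw2
    have hw0 : (0 : ℝ) < w := by exact_mod_cast hw
    have e1 : Real.log |P| ≤ Real.log (3 * w) := Real.log_le_log hP0 hw1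
    have e2 : Real.log w ≤ Real.log (3 * |P|) := Real.log_le_log hw0 hw2
    have e3 : Real.log (A * (z : ℝ) ^ d) ≤ Real.log |P| := Real.log_le_log (by positivity) h1
    have e4 : Real.log |P| ≤ Real.log (B * (z : ℝ) ^ d) := Real.log_le_log hP0 h2
    rw [Real.log_mul (by norm_num) hw0.ne'] at e1
    rw [Real.log_mul (by norm_num) hP0.ne'] at e2
    rw [Real.log_mul hA.ne' hs0.ne', Real.log_pow] at e3
    rw [Real.log_mul hB.ne' hs0.ne', Real.log_pow] at e4
    have e5 := neg_abs_le (Real.log A)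
    have e6 := le_abs_self (Real.log B)
    have e7 := abs_nonneg (Real.log A)
    have e8 := abs_nonneg (Real.log B)
    rw [abs_le]
    constructor <;> linarith
  rcases h3 with ⟨-, hpos⟩ | ⟨-, hneg⟩
  · rw [abs_of_pos hpos] at hcomp
    by_cases hc : P ≤ y
    · have := L1_bd hx hy (by nlinarith) (by linarith)
      exact fcol_ne this.1 this.2 hxy1
    · have h4 := hcomp x hx (by linarith) (by linarith)
      have := L2_bd K hp hK0 hlz h4
      exact fcol_ne this.1 this.2 (hxy2.trans hyz2)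
  · rw [abs_of_neg hneg] at hcomp
    by_cases hc : -P ≤ x / 3
    · have h5 : 3 / 2 * (y : ℝ) ≤ x := by linarith
      have := L1_bd hx hy (by nlinarith) (by linarith)
      exact fcol_ne this.1 this.2 hxy1
    · have h4 := hcomp y hy (by linarith) (by linarith)
      have := L2_bd K hp hK0 hlz h4
      exact fcol_ne this.1 this.2 hyz2

/-- All polynomials `p` with `p(0) = 0` except `X`, `-X` and `-2 X`. -/
theorem onlyConst (p : ℤ[X]) (hp0 : p.eval 0 = 0) (h1 : p ≠ X) (h2 : p ≠ -X) (h3 : p ≠ -2 * X) :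
    OnlyConst p := by
  rcases Nat.lt_or_ge 1 p.natDegree with h | h
  · exact nonlinear p h
  · have h4 := eq_X_add_C_of_natDegree_le_one h
    have h5 : p.coeff 0 = 0 := by rw [coeff_zero_eq_eval_zero]; exact hp0
    rw [h5, C_0, add_zero] at h4
    rw [h4]
    apply linear
    · intro h6
      apply h1
      rw [h4, h6, C_1, one_mul]
    · intro h6
      apply h2
      rw [h4, h6, C_neg, C_1, neg_one_mul]
    · intro h6
      apply h3
      rw [h4, h6, C_neg]
      rfl

end Pool.Agent.Y425.XTwoY
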